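import Pool.Agent.H446.AP.Mert
import Pool.Graph.R_seed8.Helper923.PNT

/-!
# Weighted sums over primes
-/

set_option autoImplicit false

namespace Pool.Agent.H446.AP3

open Finset Filter Topology Pool.Agent.H446.AP

/-- Summation by parts. -/
lemma sum_weight (Q : Finset ℕ) (f : ℕ → ℝ) (N : ℕ) (hQ : ∀ p ∈ Q, p ≤ N) :
    ∑ p ∈ Q, f p * ((N : ℝ) - p) = ∑ m ∈ range N, ∑ p ∈ Q.filter (fun p => p ≤ m), f p := by
  have h1 : ∀ m ∈ range N, ∑ p ∈ Q.filter (fun p => p ≤ m), f p = ∑ p ∈ Q, if p ≤ m then f p else 0 :=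
    fun m _ => Finset.sum_filter _ _
  rw [Finset.sum_congr rfl h1, Finset.sum_comm]
  refine Finset.sum_congr rfl fun p hp => ?_
  rw [← Finset.sum_filter, Finset.sum_const, nsmul_eq_mul]
  have h2 : (range N).filter (fun m => p ≤ m) = Ico p N := by
    ext m
    simp only [mem_filter, mem_range, mem_Ico]
    omega
  rw [h2, Nat.card_Ico, Nat.cast_sub (hQ p hp)]
  ring

lemma theta_eq (m : ℕ) : ∑ p ∈ (Icc 1 m).filter Nat.Prime, Real.log p = Chebyshev.theta m := by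
  rw [Chebyshev.theta, Nat.floor_natCast]
  rfl

/-- The prime number theorem in the form of a weighted sum. -/
lemma weighted_pnt {ε : ℝ} (hε : 0 < ε) : ∃ N₁ : ℕ, ∀ N : ℕ, N₁ ≤ N →
    (1 / 2 - ε) * (N : ℝ) ^ 2 ≤ ∑ p ∈ (Icc 1 N).filter Nat.Prime, Real.log p * ((N : ℝ) - p) := by
  have h1 := Pool.Agent.Helper923.PNT.theta_div_tendsto
  have h2 : ∀ᶠ x : ℝ in atTop, 1 - ε < Chebyshev.theta x / x := h1.eventually (lt_mem_nhds (by linarith))
  obtain ⟨x₀, hx₀⟩ := eventually_atTop.1 h2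
  obtain ⟨m₀, hm₀⟩ := exists_nat_ge (max x₀ 1)
  have hm₀1 : (1 : ℝ) ≤ m₀ := (le_max_right _ _).trans hm₀
  have h3 : ∀ m : ℕ, m₀ ≤ m → (1 - ε) * m ≤ Chebyshev.theta m := by
    intro m hm
    have e1 : (m₀ : ℝ) ≤ m := by exact_mod_cast hm
    have e2 := hx₀ m (((le_max_left _ _).trans hm₀).trans e1)
    rw [lt_div_iff₀ (by linarith)] at e2
    exact e2.le
  have h4 : ∀ m : ℕ, (1 - ε) * m - m₀ ≤ Chebyshev.theta m := by
    intro m
    rcases le_or_gt m₀ m with h | h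
    · have := h3 m h
      linarith
    · have e1 : (m : ℝ) ≤ m₀ := by exact_mod_cast h.le
      have e2 := Chebyshev.theta_nonneg (m : ℝ)
      have e3 : (0 : ℝ) ≤ m := Nat.cast_nonneg m
      nlinarith
  obtain ⟨N₁, hN₁⟩ := exists_nat_ge ((1 + 2 * m₀) / ε)
  refine ⟨N₁, fun N hN => ?_⟩
  have h5 : (1 + 2 * m₀) / ε ≤ N := hN₁.trans (by exact_mod_cast hN)
  rw [div_le_iff₀ hε] at h5
  rw [sum_weight _ _ N (fun p hp => (mem_Icc.1 (mem_filter.1 hp).1).2)]
  have h6 : ∀ m ∈ range N, (1 - ε) * m - m₀ ≤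
      ∑ p ∈ ((Icc 1 N).filter Nat.Prime).filter (fun p => p ≤ m), Real.log p := by
    intro m hm
    refine (h4 m).trans (le_of_eq ?_)
    rw [← theta_eq]
    refine Finset.sum_congr ?_ fun _ _ => rfl
    ext p
    rw [mem_range] at hm
    simp only [mem_filter, mem_Icc]
    constructor
    · rintro ⟨⟨a, b⟩, c⟩
      exact ⟨⟨⟨a, by omega⟩, c⟩, b⟩
    · rintro ⟨⟨⟨a, b⟩, c⟩, d⟩
      exact ⟨⟨a, d⟩, c⟩
  refine le_trans ?_ (Finset.sum_le_sum h6)
  rw [Finset.sum_sub_distrib, ← Finset.mul_sum, Finset.sum_const, card_range, nsmul_eq_mul]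
  have h7 : ∑ i ∈ range N, (i : ℝ) = N * (N - 1) / 2 := by
    clear h5 hN h6
    induction N with
    | zero => simp
    | succ k ih =>
      rw [Finset.sum_range_succ, ih]
      push_cast
      ring
  rw [h7]
  have h8 : (0 : ℝ) ≤ N := Nat.cast_nonneg N
  nlinarith

lemma sum_linear (N : ℕ) (δ K : ℝ) : ∑ m ∈ range (N + 1), (δ * m + K) = δ * (N * (N + 1) / 2) + K * (N + 1) := by
  induction N with
  | zero => simp
  | succ k ih =>
    rw [Finset.sum_range_succ, ih]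
    push_cast
    ring

end Pool.Agent.H446.AP3
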