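import Pool.Agent.H446.AP2.CoreW
import Pool.Agent.H446.AP3.Theta

/-!
# Algebraic numbers of large degree with reductions in small sets
-/

set_option autoImplicit false

namespace Pool.Agent.H446.AP3

open Polynomial Finset Filter Topology Pool.Agent.H446.AP Pool.Agent.H446.AP2

open Classical in
/-- The weighted sum over the bad primes up to `deg P / α`. -/
noncomputable def badW (A : Fam) (N₀ : ℕ) (α : ℝ) (P : ℤ[X]) : ℝ :=
  ∑ p ∈ (Icc 1 ⌊(P.natDegree : ℝ) / α⌋₊).filter (fun p => N₀ < p ∧ Bad A P p),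
    (1 - α * p / P.natDegree) * Real.log p

open Classical in
/-- The sum of `log p` over the bad primes up to `m`. -/
noncomputable def badTheta (A : Fam) (N₀ : ℕ) (P : ℤ[X]) (m : ℕ) : ℝ :=
  ∑ p ∈ (Icc 1 m).filter (fun p => N₀ < p ∧ Bad A P p), Real.log p

lemma rc_le_of_good {A : Fam} {α : ℝ} {N₀ : ℕ} (hA : Cls A α N₀) {P : ℤ[X]} (hP : Orb P) {p : ℕ} (hp : p.Prime)
    (hpN : N₀ < p) (hgood : ¬ Bad A P p) : (rc p P : ℝ) ≤ α * p := by
  have : Fact p.Prime := ⟨hp⟩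
  unfold rc
  rw [dif_pos hp]
  refine hA p hpN _ fun z hz => ?_
  by_contra hcon
  exact hgood ⟨⟨hp⟩, z, (mem_rts hP).1 hz, hcon⟩

open Classical in
lemma good_le {A : Fam} {α : ℝ} {N₀ : ℕ} (hA : Cls A α N₀) {P : ℤ[X]} (hP : Orb P) (N : ℕ) :
    ∑ p ∈ ((Icc 1 N).filter Nat.Prime).filter (fun p => N₀ < p ∧ ¬ Bad A P p),
      (1 - α * p / P.natDegree) * Real.log p ≤ Real.log |(rd P : ℝ)| / P.natDegree := by
  have hD : (0 : ℝ) < P.natDegree := by exact_mod_cast hP.2.1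
  have h1 := sum_log_le (((Icc 1 N).filter Nat.Prime).filter (fun p => N₀ < p ∧ ¬ Bad A P p))
    (fun p hp => (mem_filter.1 (mem_filter.1 hp).1).2) (fun p => P.natDegree - rc p P) (rd P)
    (resultant_deriv_ne_zero hP) (fun p hp => pow_rc_dvd hP (mem_filter.1 (mem_filter.1 hp).1).2)
  rw [le_div_iff₀ hD, Finset.sum_mul]
  refine le_trans (Finset.sum_le_sum fun p hp => ?_) h1
  rw [mem_filter, mem_filter] at hp
  have h2 := rc_le_of_good hA hP hp.1.2 hp.2.1 hp.2.2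
  have h3 := rc_le p P
  have h4 : ((P.natDegree - rc p P : ℕ) : ℝ) = (P.natDegree : ℝ) - rc p P := Nat.cast_sub h3
  rw [h4]
  have h5 : (1 - α * p / P.natDegree) * Real.log p * P.natDegree = Real.log p * ((P.natDegree : ℝ) - α * p) := by
    field_simp
  rw [h5]
  exact mul_le_mul_of_nonneg_left (by linarith) (logp_nonneg p)

/-- **Bad primes of algebraic numbers of large degree.** -/
theorem bad_ge {α ε : ℝ} (hα : 0 < α) (hε : 0 < ε) (N₀ : ℕ) : ∃ D₀ : ℕ, ∀ A : Fam, Cls A α N₀ →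
    ∀ P : ℤ[X], Orb P → D₀ ≤ P.natDegree →
      (1 / (2 * α) - ε) * P.natDegree - Real.log |(rd P : ℝ)| / P.natDegree ≤ badW A N₀ α P := by
  classical
  obtain ⟨N₁, hN₁⟩ := weighted_pnt (ε := min (ε * α / 2) (1 / 2)) (by positivity)
  obtain ⟨D₀, hD₀⟩ := exists_nat_ge (max (max (2 * (1 + 2 * N₀) / ε) (α * (N₁ + 1))) 1)
  refine ⟨D₀, fun A hA P hP hD => ?_⟩
  obtain ⟨D, hDD⟩ : ∃ D : ℝ, D = P.natDegree := ⟨_, rfl⟩
  have hD' : max (max (2 * (1 + 2 * (N₀ : ℝ)) / ε) (α * (N₁ + 1))) 1 ≤ D := by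
    rw [hDD]
    exact hD₀.trans (by exact_mod_cast hD)
  have hD1 : 1 ≤ D := (le_max_right _ _).trans hD'
  have hD2 : α * (N₁ + 1) ≤ D := ((le_max_right _ _).trans (le_max_left _ _)).trans hD'
  have hD3 : 2 * (1 + 2 * (N₀ : ℝ)) / ε ≤ D := ((le_max_left _ _).trans (le_max_left _ _)).trans hD'
  rw [div_le_iff₀ hε] at hD3
  obtain ⟨N, hN⟩ : ∃ N, N = ⌊D / α⌋₊ := ⟨_, rfl⟩
  have hX : 0 < D / α := by positivity
  have hNX : (N : ℝ) ≤ D / α := by
    rw [hN]
    exact Nat.floor_le hX.le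
  have hXN : D / α < N + 1 := by
    rw [hN]
    exact Nat.lt_floor_add_one _
  have hNN₁ : N₁ ≤ N := by
    rw [hN]
    refine Nat.le_floor ?_
    rw [le_div_iff₀ hα]
    nlinarith
  have h1 := hN₁ N hNN₁
  -- the total
  have h2 : (1 / (2 * α) - ε / 2) * D - 1 ≤
      ∑ p ∈ (Icc 1 N).filter Nat.Prime, (1 - α * p / D) * Real.log p := by
    have h3 : ∑ p ∈ (Icc 1 N).filter Nat.Prime, (1 - α * p / D) * Real.log p =
        α / D * ∑ p ∈ (Icc 1 N).filter Nat.Prime, Real.log p * (D / α - p) := by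
      rw [Finset.mul_sum]
      refine Finset.sum_congr rfl fun p _ => ?_
      field_simp
    have h4 : ∑ p ∈ (Icc 1 N).filter Nat.Prime, Real.log p * ((N : ℝ) - p) ≤
        ∑ p ∈ (Icc 1 N).filter Nat.Prime, Real.log p * (D / α - p) :=
      Finset.sum_le_sum fun p _ => mul_le_mul_of_nonneg_left (by linarith) (logp_nonneg p)
    rw [h3]
    have h5 : (1 / 2 - min (ε * α / 2) (1 / 2)) * (D / α * (D / α - 2)) ≤
        ∑ p ∈ (Icc 1 N).filter Nat.Prime, Real.log p * (D / α - p) := by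
      refine le_trans ?_ (h1.trans h4)
      have e1 : 0 ≤ 1 / 2 - min (ε * α / 2) (1 / 2 : ℝ) := by
        have := min_le_right (ε * α / 2) (1 / 2 : ℝ)
        linarith
      refine mul_le_mul_of_nonneg_left ?_ e1
      have e2 : (0 : ℝ) ≤ N := Nat.cast_nonneg N
      have e3 : D / α - 1 ≤ N := by linarith
      rcases le_or_gt 0 (D / α - 1) with h | h
      · nlinarith
      · nlinarith
    have h6 : α / D * ((1 / 2 - min (ε * α / 2) (1 / 2)) * (D / α * (D / α - 2))) ≤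
        α / D * ∑ p ∈ (Icc 1 N).filter Nat.Prime, Real.log p * (D / α - p) :=
      mul_le_mul_of_nonneg_left h5 (by positivity)
    refine le_trans ?_ h6
    have h7 : α / D * ((1 / 2 - min (ε * α / 2) (1 / 2)) * (D / α * (D / α - 2))) =
        (1 / 2 - min (ε * α / 2) (1 / 2)) * (D / α - 2) := by
      field_simp
    rw [h7]
    have h8 : 0 ≤ min (ε * α / 2) (1 / 2 : ℝ) := by positivity
    have h9 : min (ε * α / 2) (1 / 2 : ℝ) ≤ ε * α / 2 := min_le_left _ _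
    have h10 : min (ε * α / 2) (1 / 2 : ℝ) * (D / α) ≤ ε * α / 2 * (D / α) :=
      mul_le_mul_of_nonneg_right h9 hX.le
    have h11 : ε * α / 2 * (D / α) = ε / 2 * D := by field_simp
    have h12 : 1 / 2 * (D / α) = 1 / (2 * α) * D := by field_simp
    nlinarith
  -- the parts
  have h3 : ∑ p ∈ (Icc 1 N).filter Nat.Prime, (1 - α * p / D) * Real.log p ≤
      ∑ p ∈ ((Icc 1 N).filter Nat.Prime).filter (fun p => p ≤ N₀), Real.log p +
      badW A N₀ α P +
      ∑ p ∈ ((Icc 1 N).filter Nat.Prime).filter (fun p => N₀ < p ∧ ¬ Bad A P p),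
        (1 - α * p / P.natDegree) * Real.log p := by
    have e0 : badW A N₀ α P = ∑ p ∈ ((Icc 1 N).filter Nat.Prime).filter (fun p => N₀ < p ∧ Bad A P p),
        (1 - α * p / P.natDegree) * Real.log p := by
      rw [badW, ← hDD, ← hN]
      refine Finset.sum_congr ?_ fun _ _ => rfl
      ext p
      simp only [mem_filter]
      exact ⟨fun h => ⟨⟨h.1, h.2.2.1.out⟩, h.2⟩, fun h => ⟨h.1.1, h.2⟩⟩
    rw [e0, ← hDD, Finset.sum_filter, Finset.sum_filter (s := (Icc 1 N).filter Nat.Prime),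
      Finset.sum_filter (s := (Icc 1 N).filter Nat.Prime), Finset.sum_filter (s := (Icc 1 N).filter Nat.Prime),
      Finset.sum_filter, Finset.sum_filter, Finset.sum_filter, ← Finset.sum_add_distrib, ← Finset.sum_add_distrib]
    refine Finset.sum_le_sum fun p hp => ?_
    have h0 := logp_nonneg p
    by_cases hpp : p.Prime
    · rw [if_pos hpp, if_pos hpp, if_pos hpp, if_pos hpp]
      by_cases h2 : p ≤ N₀
      · rw [if_pos h2, if_neg (by omega), if_neg (by omega)]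
        have : 0 ≤ α * p / D := by positivity
        nlinarith
      · rw [if_neg h2]
        push Not at h2
        by_cases h3 : Bad A P p <;> simp [h2, h3]
    · rw [if_neg hpp, if_neg hpp, if_neg hpp, if_neg hpp]
      simp
  have h4 : ∑ p ∈ ((Icc 1 N).filter Nat.Prime).filter (fun p => p ≤ N₀), Real.log p ≤ 2 * N₀ := by
    have h5 := Pool.Agent.H446.AP.theta_le (x := (N₀ : ℝ)) (Nat.cast_nonneg _)
    refine le_trans (Finset.sum_le_sum_of_subset_of_nonneg ?_ fun p _ _ => logp_nonneg p) h5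
    intro p hp
    rw [mem_filter, mem_filter] at hp
    exact (mem_pr (Nat.cast_nonneg _)).2 ⟨hp.1.2, by exact_mod_cast hp.2⟩
  have h5 := good_le hA hP N
  rw [← hDD] at h5 ⊢
  rw [← hDD] at h3
  linarith

open Classical in
/-- The weighted sum in terms of the sums of `log p`. -/
lemma badW_le {A : Fam} {α δ K : ℝ} {N₀ : ℕ} (hα : 0 < α) (hδ : 0 ≤ δ) (hδ1 : δ ≤ 1) (hK : 0 ≤ K) {P : ℤ[X]}
    (hP : Orb P) (hD : α ≤ P.natDegree) (h : ∀ m : ℕ, badTheta A N₀ P m ≤ δ * m + K) :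
    badW A N₀ α P ≤ δ / (2 * α) * P.natDegree + (1 + 2 * K) := by
  obtain ⟨D, hDD⟩ : ∃ D : ℝ, D = P.natDegree := ⟨_, rfl⟩
  have hD0 : (0 : ℝ) < D := by
    rw [hDD]
    exact_mod_cast hP.2.1
  obtain ⟨N, hN⟩ : ∃ N, N = ⌊D / α⌋₊ := ⟨_, rfl⟩
  have hX : 0 < D / α := by positivity
  have hX1 : 1 ≤ D / α := by
    rw [le_div_iff₀ hα, hDD]
    linarith
  have hNX : (N : ℝ) ≤ D / α := by
    rw [hN]
    exact Nat.floor_le hX.le
  have hXN : D / α < N + 1 := by
    rw [hN]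
    exact Nat.lt_floor_add_one _
  rw [badW, ← hDD, ← hN]
  set Q := (Icc 1 N).filter (fun p => N₀ < p ∧ Bad A P p) with hQ
  have h1 : ∑ p ∈ Q, (1 - α * p / D) * Real.log p ≤ α / D * ∑ p ∈ Q, Real.log p * (((N + 1 : ℕ) : ℝ) - p) := by
    rw [Finset.mul_sum]
    refine Finset.sum_le_sum fun p _ => ?_
    have e1 : (1 - α * p / D) * Real.log p = α / D * (Real.log p * (D / α - p)) := by
      field_simp
    rw [e1]
    refine mul_le_mul_of_nonneg_left (mul_le_mul_of_nonneg_left ?_ (logp_nonneg p)) (by positivity)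
    push_cast
    linarith
  have h2 : ∑ p ∈ Q, Real.log p * (((N + 1 : ℕ) : ℝ) - p) ≤ ∑ m ∈ range (N + 1), (δ * m + K) := by
    rw [sum_weight Q _ (N + 1) (fun p hp => by
      have := (mem_Icc.1 (mem_filter.1 hp).1).2
      omega)]
    refine Finset.sum_le_sum fun m hm => ?_
    refine le_trans (le_of_eq ?_) (h m)
    rw [badTheta]
    refine Finset.sum_congr ?_ fun _ _ => rfl
    ext p
    rw [mem_range] at hm
    simp only [hQ, mem_filter, mem_Icc]
    constructor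
    · rintro ⟨⟨⟨a, b⟩, c⟩, d⟩
      exact ⟨⟨a, d⟩, c⟩
    · rintro ⟨⟨a, b⟩, c⟩
      exact ⟨⟨⟨a, by omega⟩, c⟩, b⟩
  rw [sum_linear] at h2
  have hN0 : (0 : ℝ) ≤ N := Nat.cast_nonneg N
  have h3 : δ * ((N : ℝ) * (N + 1) / 2) + K * (N + 1) ≤ D / α * (δ / (2 * α) * D + (1 + 2 * K)) := by
    have e1 : (N : ℝ) * (N + 1) ≤ D / α * (D / α + 1) := by nlinarith
    have e2 : δ * ((N : ℝ) * (N + 1) / 2) ≤ δ * (D / α * (D / α + 1) / 2) := by gcongr
    have e3 : K * ((N : ℝ) + 1) ≤ K * (2 * (D / α)) := by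
      refine mul_le_mul_of_nonneg_left ?_ hK
      linarith
    have e4 : δ * (D / α * (D / α + 1) / 2) = D / α * (δ / (2 * α) * D + δ / 2) := by
      field_simp
    have e5 : D / α * (δ / (2 * α) * D + δ / 2) + K * (2 * (D / α)) ≤ D / α * (δ / (2 * α) * D + (1 + 2 * K)) := by
      have : δ / 2 ≤ 1 := by linarith
      nlinarith
    linarith
  have h4 : α / D * (D / α * (δ / (2 * α) * D + (1 + 2 * K))) = δ / (2 * α) * D + (1 + 2 * K) := by
    field_simp
  calc ∑ p ∈ Q, (1 - α * p / D) * Real.log p ≤ α / D * ∑ p ∈ Q, Real.log p * (((N + 1 : ℕ) : ℝ) - p) := h1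
    _ ≤ α / D * (D / α * (δ / (2 * α) * D + (1 + 2 * K))) :=
        mul_le_mul_of_nonneg_left (h2.trans h3) (by positivity)
    _ = _ := h4

/-- **Algebraic numbers of large degree have many bad primes.** -/
theorem degree_lt {α δ K ε : ℝ} (hα : 0 < α) (hδ : 0 ≤ δ) (hδ1 : δ ≤ 1) (hK : 0 ≤ K) (hε : 0 < ε) (N₀ : ℕ) :
    ∃ D₀ : ℕ, ∀ A : Fam, Cls A α N₀ → ∀ P : ℤ[X], Orb P →
      Real.log |(rd P : ℝ)| ≤ ((1 - δ) / (2 * α) - ε) * (P.natDegree : ℝ) ^ 2 →
        (∀ m : ℕ, badTheta A N₀ P m ≤ δ * m + K) → P.natDegree < D₀ := by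
  obtain ⟨D₁, hD₁⟩ := bad_ge hα (half_pos hε) N₀
  obtain ⟨D₂, hD₂⟩ := exists_nat_gt (max (2 * (1 + 2 * K) / ε) α)
  refine ⟨max D₁ D₂, fun A hA P hP hR hbad => ?_⟩
  by_contra hcon
  push Not at hcon
  have h1 : D₁ ≤ P.natDegree := (le_max_left _ _).trans hcon
  have h2 : (D₂ : ℝ) ≤ P.natDegree := by exact_mod_cast (le_max_right _ _).trans hcon
  have h3 := hD₁ A hA P hP h1
  have hαD : α ≤ P.natDegree := (le_max_right _ _).trans (hD₂.le.trans h2)
  have h4 := badW_le (A := A) (N₀ := N₀) hα hδ hδ1 hK hP hαD hbad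
  obtain ⟨D, hDD⟩ : ∃ D : ℝ, D = P.natDegree := ⟨_, rfl⟩
  rw [← hDD] at h2 h3 h4 hR hαD
  have hD0 : 0 < D := by
    rw [hDD]
    exact_mod_cast hP.2.1
  have h5 : 2 * (1 + 2 * K) / ε < D := lt_of_le_of_lt (le_max_left _ _) (hD₂.trans_le h2)
  rw [div_lt_iff₀ hε] at h5
  have h6 : Real.log |(rd P : ℝ)| / D ≤ ((1 - δ) / (2 * α) - ε) * D := by
    rw [div_le_iff₀ hD0]
    calc _ ≤ _ := hR
      _ = _ := by ring
  have h7 : (1 - δ) / (2 * α) = 1 / (2 * α) - δ / (2 * α) := by ring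
  rw [h7] at h6
  nlinarith

end Pool.Agent.H446.AP3
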