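import Pool.Agent.H446.AP.Mert

/-!
# Discriminants and transfinite diameters
-/

set_option autoImplicit false

namespace Pool.Agent.H446.AP3

open Polynomial Finset Pool.Agent.H446.AP

/-- The product of the distances of the points of a finite set. -/
noncomputable def Phi (s : Finset ℂ) : ℝ := ∏ x ∈ s, ∏ y ∈ s.erase x, ‖x - y‖

lemma Phi_nonneg (s : Finset ℂ) : 0 ≤ Phi s :=
  Finset.prod_nonneg fun _ _ => Finset.prod_nonneg fun _ _ => norm_nonneg _

lemma prod_Phi_erase (s : Finset ℂ) : ∏ k ∈ s, Phi (s.erase k) = Phi s ^ (s.card - 2) := by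
  unfold Phi
  have h1 : ∏ k ∈ s, ∏ x ∈ s.erase k, ∏ y ∈ (s.erase k).erase x, ‖x - y‖ =
      ∏ x ∈ s, ∏ k ∈ s.erase x, ∏ y ∈ (s.erase k).erase x, ‖x - y‖ := by
    refine Finset.prod_comm' ?_
    intro k x
    simp only [mem_erase]
    constructor
    · rintro ⟨a, b, c⟩
      exact ⟨⟨fun h => b h.symm, a⟩, c⟩
    · rintro ⟨⟨a, b⟩, c⟩
      exact ⟨b, fun h => a h.symm, c⟩
  rw [h1, ← Finset.prod_pow]
  refine Finset.prod_congr rfl fun x hx => ?_
  have h2 : ∏ k ∈ s.erase x, ∏ y ∈ (s.erase k).erase x, ‖x - y‖ =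
      ∏ y ∈ s.erase x, ∏ _k ∈ (s.erase x).erase y, ‖x - y‖ := by
    refine Finset.prod_comm' ?_
    intro k y
    simp only [mem_erase]
    constructor
    · rintro ⟨⟨a, b⟩, c, d, e⟩
      exact ⟨⟨fun h => d h.symm, a, b⟩, c, e⟩
    · rintro ⟨⟨a, b, c⟩, d, e⟩
      exact ⟨⟨b, c⟩, d, fun h => a h.symm, e⟩
  rw [h2, ← Finset.prod_pow]
  refine Finset.prod_congr rfl fun y hy => ?_
  rw [Finset.prod_const, card_erase_of_mem hy, card_erase_of_mem hx]
  congr 1

/-- The diameters decrease. -/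
lemma Phi_le {E : Set ℂ} {N : ℕ} (hN : 2 ≤ N) {q : ℝ} (hq : 0 ≤ q)
    (hE : ∀ s : Finset ℂ, (s : Set ℂ) ⊆ E → s.card = N → Phi s ≤ q ^ (N * (N - 1))) (D : ℕ) (hD : N ≤ D)
    (s : Finset ℂ) (hs : (s : Set ℂ) ⊆ E) (hsD : s.card = D) : Phi s ≤ q ^ (D * (D - 1)) := by
  induction D, hD using Nat.le_induction generalizing s with
  | base => exact hE s hs hsD
  | succ D hD ih =>
    have h1 : ∀ k ∈ s, Phi (s.erase k) ≤ q ^ (D * (D - 1)) := by
      intro k hk
      refine ih (s.erase k) ?_ ?_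
      · exact (Finset.coe_subset.2 (erase_subset k s)).trans hs
      · rw [card_erase_of_mem hk, hsD]
        rfl
    have h2 : ∏ k ∈ s, Phi (s.erase k) ≤ (q ^ (D * (D - 1))) ^ s.card := by
      rw [← Finset.prod_const]
      exact Finset.prod_le_prod (fun _ _ => Phi_nonneg _) h1
    rw [prod_Phi_erase, hsD, ← pow_mul] at h2
    have h3 : D * (D - 1) * (D + 1) = (D + 1) * (D + 1 - 1) * (D + 1 - 2) := by
      obtain ⟨k, rfl⟩ : ∃ k, D = k + 2 := ⟨D - 2, by omega⟩
      have e1 : k + 2 - 1 = k + 1 := rfl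
      have e2 : k + 2 + 1 - 1 = k + 2 := rfl
      have e3 : k + 2 + 1 - 2 = k + 1 := rfl
      rw [e1, e2, e3]
      ring
    rw [h3, pow_mul] at h2
    exact le_of_pow_le_pow_left₀ (by omega) (by positivity) h2

/-- The resultant of a polynomial and its derivative. -/
lemma norm_resultant_deriv_eq (f : ℂ[X]) (hf0 : 0 < f.natDegree) {v : Fin f.natDegree → ℂ}
    (hv : f.roots = univ.val.map v) (hf : f = C f.leadingCoeff * ∏ i, (X - C (v i))) :
    ‖resultant f (derivative f) f.natDegree (f.natDegree - 1)‖ =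
      ‖f.leadingCoeff‖ ^ (2 * f.natDegree - 1) * ∏ i, ∏ j ∈ univ.erase i, ‖v i - v j‖ := by
  rw [resultant_eq_prod_eval f _ _ (natDegree_derivative_le f) (IsAlgClosed.splits f), hv, Multiset.map_map]
  have h0 : (Multiset.map ((fun x => eval x (derivative f)) ∘ v) univ.val).prod =
      ∏ i, (derivative f).eval (v i) := rfl
  have h1 : ∀ i, (derivative f).eval (v i) = f.leadingCoeff * ∏ j ∈ univ.erase i, (v i - v j) := by
    intro i
    conv_lhs => rw [hf]
    rw [derivative_C_mul, eval_mul, eval_C, derivative_prod_finset, eval_finsetSum]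
    congr 1
    rw [Finset.sum_eq_single i]
    · rw [eval_mul, eval_prod]
      simp
    · intro j _ hji
      rw [eval_mul, eval_prod]
      have : ∏ k ∈ univ.erase j, eval (v i) (X - C (v k)) = 0 :=
        Finset.prod_eq_zero (mem_erase.2 ⟨hji.symm, mem_univ i⟩) (by simp)
      rw [this, zero_mul]
    · intro h
      exact absurd (mem_univ i) h
  rw [h0, norm_mul, norm_pow, norm_prod]
  simp only [h1, norm_mul, norm_prod]
  rw [Finset.prod_mul_distrib, Finset.prod_const, card_univ, Fintype.card_fin, ← mul_assoc, ← pow_add]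
  congr 2
  omega

/-- The discriminant of a polynomial with all zeros in a set of small capacity. -/
theorem log_rd_le {E : Set ℂ} {N : ℕ} (hN : 2 ≤ N) {q : ℝ} (hq : 1 ≤ q)
    (hE : ∀ s : Finset ℂ, (s : Set ℂ) ⊆ E → s.card = N → Phi s ≤ q ^ (N * (N - 1))) {P : ℤ[X]} (hP : Orb P)
    (hPN : N ≤ P.natDegree) (hPE : ∀ z : ℂ, aeval z P = 0 → z ∈ E) {l : ℝ}
    (hlc : Real.log (P.leadingCoeff : ℝ) ≤ l * P.natDegree) :
    Real.log |((resultant P (derivative P) P.natDegree (P.natDegree - 1) : ℤ) : ℝ)| ≤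
      (2 * l + Real.log q) * (P.natDegree : ℝ) ^ 2 := by
  classical
  set f := P.map (Int.castRingHom ℂ) with hf
  have hdeg : f.natDegree = P.natDegree := mm_natDegree P
  obtain ⟨v, hv, hfv⟩ := exists_roots f
  have h1 := norm_resultant_deriv_eq f (by rw [hdeg]; exact hP.2.1) hv hfv
  have h2 : ‖resultant f (derivative f) f.natDegree (f.natDegree - 1)‖ =
      |((resultant P (derivative P) P.natDegree (P.natDegree - 1) : ℤ) : ℝ)| := by
    rw [hdeg, hf, derivative_map, resultant_map_map, eq_intCast, Complex.norm_intCast]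
  have h0 : (0 : ℝ) < |((resultant P (derivative P) P.natDegree (P.natDegree - 1) : ℤ) : ℝ)| := by
    have := resultant_deriv_ne_zero hP
    rw [abs_pos]
    exact_mod_cast this
  rw [h2] at h1
  have hinj : Function.Injective v := by
    intro i j hij
    by_contra hne
    have : ∏ i, ∏ j ∈ univ.erase i, ‖v i - v j‖ = 0 := by
      refine Finset.prod_eq_zero (mem_univ i) ?_
      refine Finset.prod_eq_zero (i := j) (mem_erase.2 ⟨fun h => hne h.symm, mem_univ j⟩) ?_
      rw [hij, sub_self, norm_zero]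
    rw [this, mul_zero] at h1
    exact h0.ne' h1
  have h3 : ∏ i, ∏ j ∈ univ.erase i, ‖v i - v j‖ = Phi (univ.image v) := by
    unfold Phi
    rw [Finset.prod_image (fun i _ j _ h => hinj h)]
    refine Finset.prod_congr rfl fun i _ => ?_
    rw [← Finset.image_erase hinj, Finset.prod_image (fun i _ j _ h => hinj h)]
  have h4 : Phi (univ.image v) ≤ q ^ (P.natDegree * (P.natDegree - 1)) := by
    refine Phi_le hN (by linarith) hE P.natDegree hPN _ ?_ ?_
    · intro z hz
      rw [Finset.mem_coe, Finset.mem_image] at hz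
      obtain ⟨i, -, rfl⟩ := hz
      refine hPE _ ?_
      have h5 : v i ∈ f.roots := by
        rw [hv]
        exact Multiset.mem_map_of_mem v (Finset.mem_univ i)
      have h6 := (mem_roots'.1 h5).2
      rw [IsRoot.def, hf, eval_map] at h6
      rw [aeval_def]
      rwa [show algebraMap ℤ ℂ = Int.castRingHom ℂ from RingHom.ext_int _ _]
    · rw [Finset.card_image_of_injective _ hinj, card_univ, Fintype.card_fin, hdeg]
  have hlc0 : (0 : ℝ) < P.leadingCoeff := by exact_mod_cast hP.2.2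
  have h5 : ‖f.leadingCoeff‖ = (P.leadingCoeff : ℝ) := by
    rw [hf, leadingCoeff_map_of_injective (RingHom.injective_int _), eq_intCast, Complex.norm_intCast,
      abs_of_pos hlc0]
  rw [h3, h5] at h1
  have hexp : 2 * f.natDegree - 1 = 2 * P.natDegree - 1 := by rw [hdeg]
  rw [hexp] at h1
  have h6 : (0 : ℝ) < (P.leadingCoeff : ℝ) ^ (2 * P.natDegree - 1) := by positivity
  have h7 : |((resultant P (derivative P) P.natDegree (P.natDegree - 1) : ℤ) : ℝ)| ≤
      (P.leadingCoeff : ℝ) ^ (2 * P.natDegree - 1) * q ^ (P.natDegree * (P.natDegree - 1)) := by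
    rw [h1]
    exact mul_le_mul_of_nonneg_left h4 h6.le
  have h8 := Real.log_le_log h0 h7
  rw [Real.log_mul h6.ne' (by positivity), Real.log_pow, Real.log_pow] at h8
  have hlc1 : 0 ≤ Real.log (P.leadingCoeff : ℝ) := by
    refine Real.log_nonneg ?_
    have := hP.2.2
    exact_mod_cast (by omega : 1 ≤ P.leadingCoeff)
  have hq0 : 0 ≤ Real.log q := Real.log_nonneg hq
  have e1 : ((2 * P.natDegree - 1 : ℕ) : ℝ) ≤ 2 * P.natDegree := by
    have : 2 * P.natDegree - 1 ≤ 2 * P.natDegree := by omega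
    exact_mod_cast this
  have e2 : ((P.natDegree * (P.natDegree - 1) : ℕ) : ℝ) ≤ (P.natDegree : ℝ) ^ 2 := by
    have : P.natDegree * (P.natDegree - 1) ≤ P.natDegree ^ 2 := by
      rw [sq]
      exact Nat.mul_le_mul_left _ (by omega)
    exact_mod_cast this
  have e3 : ((2 * P.natDegree - 1 : ℕ) : ℝ) * Real.log (P.leadingCoeff : ℝ) ≤
      (2 * P.natDegree) * (l * P.natDegree) :=
    mul_le_mul e1 hlc hlc1 (by positivity)
  have e4 : ((P.natDegree * (P.natDegree - 1) : ℕ) : ℝ) * Real.log q ≤ (P.natDegree : ℝ) ^ 2 * Real.log q :=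
    mul_le_mul_of_nonneg_right e2 hq0
  calc _ ≤ _ := h8
    _ ≤ (2 * P.natDegree) * (l * P.natDegree) + (P.natDegree : ℝ) ^ 2 * Real.log q := add_le_add e3 e4
    _ = _ := by ring

/-- The Mahler measure of a polynomial with all zeros in a disc. -/
theorem mm_le {R l : ℝ} (hR : 1 ≤ R) {P : ℤ[X]} (hP : Orb P) (hPE : ∀ z : ℂ, aeval z P = 0 → ‖z‖ ≤ R)
    (hlc : Real.log (P.leadingCoeff : ℝ) ≤ l * P.natDegree) :
    mm P ≤ Real.exp ((l + Real.log R) * P.natDegree) := by
  classical
  set f := P.map (Int.castRingHom ℂ) with hf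
  have hdeg : f.natDegree = P.natDegree := mm_natDegree P
  obtain ⟨v, hv, hfv⟩ := exists_roots f
  have hlc0 : (0 : ℝ) < P.leadingCoeff := by exact_mod_cast hP.2.2
  have h5 : ‖f.leadingCoeff‖ = (P.leadingCoeff : ℝ) := by
    rw [hf, leadingCoeff_map_of_injective (RingHom.injective_int _), eq_intCast, Complex.norm_intCast,
      abs_of_pos hlc0]
  have h1 : mm P = (P.leadingCoeff : ℝ) * ∏ i, max 1 ‖v i‖ := by
    rw [mm, ← hf, mahler_eq f hv, h5]
  have h2 : ∏ i, max 1 ‖v i‖ ≤ R ^ P.natDegree := by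
    calc ∏ i, max 1 ‖v i‖ ≤ ∏ _i : Fin f.natDegree, R := by
          refine Finset.prod_le_prod (fun _ _ => by positivity) fun i _ => max_le hR (hPE _ ?_)
          have h5 : v i ∈ f.roots := by
            rw [hv]
            exact Multiset.mem_map_of_mem v (Finset.mem_univ i)
          have h6 := (mem_roots'.1 h5).2
          rw [IsRoot.def, hf, eval_map] at h6
          rw [aeval_def]
          rwa [show algebraMap ℤ ℂ = Int.castRingHom ℂ from RingHom.ext_int _ _]
      _ = _ := by rw [Finset.prod_const, card_univ, Fintype.card_fin, hdeg]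
  have h3 : (P.leadingCoeff : ℝ) ≤ Real.exp (l * P.natDegree) := by
    rw [← Real.log_le_iff_le_exp hlc0]
    exact hlc
  have h4 : Real.exp (Real.log R * P.natDegree) = R ^ P.natDegree := by
    rw [mul_comm, Real.exp_nat_mul, Real.exp_log (by linarith)]
  rw [h1, add_mul, Real.exp_add, h4]
  exact mul_le_mul h3 h2 (Finset.prod_nonneg fun _ _ => by positivity) (Real.exp_pos _).le

end Pool.Agent.H446.AP3
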